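import Pool.Agent.H49.Hub.Esc3

/-!
# Connected graphs without two disjoint claws have no local limit, in both models

`S = TwoClaws` is the (finite) set of all connected graphs on `8` vertices which contain two
disjoint claws `K_{1,3}`.  A connected graph has no minor in `S` exactly when it does not contain
two disjoint claws.  The class contains all paths, cycles, fans and wheels, so the diameters are
not bounded.  In both models the ball of radius `2` about the root has more than `M` vertices with
limiting probability at least `1/2`, and the ball of radius `K + 2` with limiting probability at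
least `1 - 2 ^ (-K)`, for every `M`; so no subsequence of `R_n` converges weakly, and all mass
escapes.

Proof.  A vertex of degree at least `7` (a hub) is unique, and after its deletion all degrees are
at most `2`.  (a) Graphs with all degrees at most `m` are rare: four vertices can be deleted so that
all degrees are at most `2`; then there are at most `4 m` components, and the edges at the
four vertices can be replaced by edges from one of them to an arbitrary set of vertices. This gives
`2 ^ n` graphs, and every graph arises only polynomially often.  For isomorphism classes one uses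
that an isomorphism is determined by its values on boundedly many vertices.  (b) If the root is
not in the neighbourhood of the hub, then it can be joined to the hub; this is injective, also on
isomorphism classes.  (c) If the hub is at distance at least `K + 2`, then an arbitrary set of the
first `K + 1` vertices of a path from the root can be joined to it; this is at most two-to-one.

The definitions of the models, of minors and of weak convergence are those of the library
module `Pool.Graph.R_seed8.H265R3.ML.Defs`.
-/

set_option autoImplicit false

namespace Pool.Agent.Results.MP_e761a2_pr.TwoDisjointClaws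

open SimpleGraph Filter Topology MeasureTheory Pool.Agent.H265R3.ML Pool.Agent.H49.Hub

/-- **Main result.** Let `S = TwoClaws` be the set of all connected graphs on `8` vertices which
contain two disjoint claws. It is a finite nonempty set of connected graphs, and
* every finite graph which has a vertex `v` such that all vertices except `v` have at most two
  neighbours different from `v` has no minor in `S` (for instance all paths, cycles, fans and
  wheels); in particular all paths are in the class, and the models are defined for all `n ≥ 1`;
* in the labelled and in the unlabelled model, for every `M`, the probability that the ball of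
  radius `2` about the root has at most `M` vertices is at most `1/2 + ε` for all large `n`;
* the same holds for the ball of radius `K + 2` with `2 ^ (-K) + ε`, for every `K`;
* no subsequence of `R_n` converges weakly, in either model; in particular `R_n` does not converge
  weakly. -/
theorem result : TwoClaws.Finite ∧ TwoClaws.Nonempty ∧ (∀ H ∈ TwoClaws, H.2.Connected) ∧
    (∀ (V : Type) (_ : Fintype V) (G : SimpleGraph V) (v : V),
      (∀ w, w ≠ v → ∀ a b c, a ≠ v → b ≠ v → c ≠ v → a ≠ b → a ≠ c → b ≠ c →
        G.Adj w a → G.Adj w b → G.Adj w c → False) → ∀ H ∈ TwoClaws, ¬ IsMinor H.2 G) ∧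
    (∀ n, ∀ H ∈ TwoClaws, ¬ IsMinor H.2 (pathGraph n)) ∧
    (∀ n, 1 ≤ n → Nonempty (Ex TwoClaws n)) ∧
    (∀ (M : ℕ) (ε : ℝ), 0 < ε → ∀ᶠ n : ℕ in atTop,
      expL TwoClaws n (indF 2 M) ≤ 1 / 2 + ε ∧ expU TwoClaws n (indF 2 M) ≤ 1 / 2 + ε) ∧
    (∀ (K M : ℕ) (ε : ℝ), 0 < ε → ∀ᶠ n : ℕ in atTop,
      expL TwoClaws n (indF (K + 2) M) ≤ 1 / 2 ^ K + ε ∧
        expU TwoClaws n (indF (K + 2) M) ≤ 1 / 2 ^ K + ε) ∧
    (∀ φ : ℕ → ℕ, StrictMono φ →
      (¬ ∃ μ : ProbabilityMeasure RG, ∀ f : BoundedContinuousFunction RG ℝ,
        Tendsto (fun n => expL TwoClaws (φ n) f) atTop (𝓝 (∫ x, f x ∂(μ : Measure RG)))) ∧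
      (¬ ∃ μ : ProbabilityMeasure RG, ∀ f : BoundedContinuousFunction RG ℝ,
        Tendsto (fun n => expU TwoClaws (φ n) f) atTop (𝓝 (∫ x, f x ∂(μ : Measure RG))))) ∧
    ¬ ConvL TwoClaws ∧ ¬ ConvU TwoClaws := by
  have hsub : ∀ φ : ℕ → ℕ, StrictMono φ →
      (¬ ∃ μ : ProbabilityMeasure RG, ∀ f : BoundedContinuousFunction RG ℝ,
        Tendsto (fun n => expL TwoClaws (φ n) f) atTop (𝓝 (∫ x, f x ∂(μ : Measure RG)))) ∧
      (¬ ∃ μ : ProbabilityMeasure RG, ∀ f : BoundedContinuousFunction RG ℝ,
        Tendsto (fun n => expU TwoClaws (φ n) f) atTop (𝓝 (∫ x, f x ∂(μ : Measure RG)))) := by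
    intro φ hφ
    refine ⟨no_limit (fun n => expL TwoClaws (φ n)) 2 (3 / 4) (by norm_num) fun M => ?_,
      no_limit (fun n => expU TwoClaws (φ n)) 2 (3 / 4) (by norm_num) fun M => ?_⟩
    · have h := hφ.tendsto_atTop.eventually (lab_escape M (1 / 4) (by norm_num))
      filter_upwards [h] with n hn
      linarith
    · have h := hφ.tendsto_atTop.eventually (unl_escape M (1 / 4) (by norm_num))
      filter_upwards [h] with n hn
      linarith
  refine ⟨twoClaws_finite, twoClaws_nonempty, twoClaws_connected, ?_, path_mem,
    ex_nonempty, fun M ε hε => (lab_escape M ε hε).and (unl_escape M ε hε), escape, hsub,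
    (hsub id strictMono_id).1, (hsub id strictMono_id).2⟩
  intro V _ G v h
  exact not_minor h

end Pool.Agent.Results.MP_e761a2_pr.TwoDisjointClaws
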